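import Pool.Agent.Helper19.Qh.Stmts

set_option autoImplicit false

/-!
# Module CELLI : the hyperbolic measure in the coordinates `(x, u)`
(port of `Pool.Agent.Helper34.Un.CELLI`)
-/

namespace Pool.Agent.Helper19.Qh

open MeasureTheory Topology

variable {m : ℕ}

theorem celli_finrank (m : ℕ) : Module.finrank ℝ (E m) = 4 * m := by
  have h := Module.finrank_mul_finrank ℝ Q (E m)
  have h2 : Module.finrank Q (E m) = m := by
    rw [LinearEquiv.finrank_eq (WithLp.linearEquiv 2 Q (Fin m → Q)),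
      Module.finrank_fintype_fun_eq_card, Fintype.card_fin]
  rw [Quaternion.finrank_eq_four, h2] at h
  exact h.symm

/-- the parameter space -/
abbrev CelliY (m : ℕ) := ℝ × ((Fin (4 * m) → ℝ) × (Fin 3 → ℝ))

/-- the linear part of the parametrisation -/
noncomputable def celliP (β : Fin (4 * m) → E m) (γ : Fin 3 → Q) :
    CelliY m →ₗ[ℝ] Pt m where
  toFun y := (((-y.1 / 2 : ℝ) : Q) + ∑ j, y.2.2 j • γ j, ∑ i, y.2.1 i • β i)
  map_add' x y := by
    refine Prod.ext ?_ ?_
    · have h : (-(x + y).1 / 2 : ℝ) = -x.1 / 2 + -y.1 / 2 := by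
        rw [Prod.fst_add]; ring
      have h2 : ((-(x + y).1 / 2 : ℝ) : Q) = ((-x.1 / 2 : ℝ) : Q) + ((-y.1 / 2 : ℝ) : Q) := by
        rw [h, Quaternion.coe_add]
      change ((-(x + y).1 / 2 : ℝ) : Q) + ∑ j, (x + y).2.2 j • γ j
        = (((-x.1 / 2 : ℝ) : Q) + ∑ j, x.2.2 j • γ j) + (((-y.1 / 2 : ℝ) : Q) + ∑ j, y.2.2 j • γ j)
      rw [h2]
      simp only [Prod.snd_add, Pi.add_apply, add_smul, Finset.sum_add_distrib]
      abel
    · simp [add_smul, Finset.sum_add_distrib]
  map_smul' r x := by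
    refine Prod.ext ?_ ?_
    · have h : (-(r • x).1 / 2 : ℝ) = r * (-x.1 / 2) := by
        rw [Prod.smul_fst, smul_eq_mul]; ring
      have h2 : ((-(r • x).1 / 2 : ℝ) : Q) = r • ((-x.1 / 2 : ℝ) : Q) := by
        rw [h, Quaternion.coe_mul, Quaternion.coe_mul_eq_smul]
      change ((-(r • x).1 / 2 : ℝ) : Q) + ∑ j, (r • x).2.2 j • γ j
        = r • (((-x.1 / 2 : ℝ) : Q) + ∑ j, x.2.2 j • γ j)
      rw [h2, smul_add, Finset.smul_sum]
      simp only [Prod.smul_snd, Pi.smul_apply, smul_eq_mul, mul_smul]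
    · simp [mul_smul, Finset.smul_sum]

theorem celliP_apply (β : Fin (4 * m) → E m) (γ : Fin 3 → Q) (y : CelliY m) :
    celliP β γ y = (((-y.1 / 2 : ℝ) : Q) + ∑ j, y.2.2 j • γ j, ∑ i, y.2.1 i • β i) := rfl

theorem celliP_inj {β : Fin (4 * m) → E m} {γ : Fin 3 → Q} (hγ : ∀ j, (γ j).re = 0)
    (hγl : LinearIndependent ℝ γ) (hβ : LinearIndependent ℝ β) :
    Function.Injective (celliP β γ) := by
  rw [injective_iff_map_eq_zero]
  intro y hy
  rw [celliP_apply] at hy
  have h1 : (((-y.1 / 2 : ℝ) : Q) + ∑ j, y.2.2 j • γ j) = 0 := congrArg Prod.fst hy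
  have h2 : ∑ i, y.2.1 i • β i = 0 := congrArg Prod.snd hy
  have h3 : -y.1 / 2 = 0 := by
    have h := congrArg (fun q : Q => q.re) h1
    simp only [Quaternion.re_add, Quaternion.re_coe, re_sum_im γ hγ, add_zero,
      Quaternion.re_zero] at h
    exact h
  have h4 : ∑ j, y.2.2 j • γ j = 0 := by
    rw [h3, Quaternion.coe_zero, zero_add] at h1
    exact h1
  have h5 := Fintype.linearIndependent_iff.1 hβ _ h2
  have h6 := Fintype.linearIndependent_iff.1 hγl _ h4
  refine Prod.ext ?_ (Prod.ext ?_ ?_)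
  · change y.1 = 0
    linarith
  · exact funext h5
  · exact funext h6

theorem celli_dim (m : ℕ) :
    Module.finrank ℝ (CelliY m) = Module.finrank ℝ (Pt m) := by
  rw [Module.finrank_prod, Module.finrank_prod, Module.finrank_prod, celli_finrank,
    Module.finrank_fintype_fun_eq_card, Module.finrank_fintype_fun_eq_card, Fintype.card_fin,
    Fintype.card_fin, Module.finrank_self, Quaternion.finrank_eq_four]
  ring

/-- the linear part as an equivalence -/
noncomputable def celliE (β : Fin (4 * m) → E m) (γ : Fin 3 → Q) (hγ : ∀ j, (γ j).re = 0)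
    (hγl : LinearIndependent ℝ γ) (hβ : LinearIndependent ℝ β) : CelliY m ≃L[ℝ] Pt m :=
  LinearEquiv.toContinuousLinearEquiv
    (LinearMap.linearEquivOfInjective (celliP β γ) (celliP_inj hγ hγl hβ) (celli_dim m))

theorem celliE_apply (β : Fin (4 * m) → E m) (γ : Fin 3 → Q) (hγ : ∀ j, (γ j).re = 0)
    (hγl : LinearIndependent ℝ γ) (hβ : LinearIndependent ℝ β) (y : CelliY m) :
    celliE β γ hγ hγl hβ y
      = (((-y.1 / 2 : ℝ) : Q) + ∑ j, y.2.2 j • γ j, ∑ i, y.2.1 i • β i) := rfl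

/-- the shear -/
noncomputable def celliS (p : Pt m) : Pt m := (-((‖p.2‖ ^ 2 / 2 : ℝ) : Q) + p.1, p.2)

/-- the inverse shear -/
noncomputable def celliU (p : Pt m) : Pt m := (((‖p.2‖ ^ 2 / 2 : ℝ) : Q) + p.1, p.2)

theorem celliU_S (p : Pt m) : celliU (celliS p) = p := by
  refine Prod.ext ?_ rfl
  change ((‖p.2‖ ^ 2 / 2 : ℝ) : Q) + (-((‖p.2‖ ^ 2 / 2 : ℝ) : Q) + p.1) = p.1
  abel

theorem celliS_U (p : Pt m) : celliS (celliU p) = p := by
  refine Prod.ext ?_ rfl
  change -((‖p.2‖ ^ 2 / 2 : ℝ) : Q) + (((‖p.2‖ ^ 2 / 2 : ℝ) : Q) + p.1) = p.1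
  abel

theorem celli_coe_cont : Continuous (fun r : ℝ => (r : Q)) := Quaternion.continuous_coe

theorem celliS_cont : Continuous (celliS : Pt m → Pt m) := by
  unfold celliS
  have h1 : Continuous fun p : Pt m => ‖p.2‖ ^ 2 / 2 := (continuous_snd.norm.pow 2).div_const 2
  exact ((celli_coe_cont.comp h1).neg.add continuous_fst).prodMk continuous_snd

theorem celliU_cont : Continuous (celliU : Pt m → Pt m) := by
  unfold celliU
  have h1 : Continuous fun p : Pt m => ‖p.2‖ ^ 2 / 2 := (continuous_snd.norm.pow 2).div_const 2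
  exact ((celli_coe_cont.comp h1).add continuous_fst).prodMk continuous_snd

theorem celliS_mp : MeasurePreserving (celliS : Pt m → Pt m) (volume : Measure (Pt m)) volume := by
  have h1 : MeasurePreserving (fun p : E m × Q => (id p.1, -((‖p.1‖ ^ 2 / 2 : ℝ) : Q) + p.2))
      ((volume : Measure (E m)).prod (volume : Measure Q))
      ((volume : Measure (E m)).prod (volume : Measure Q)) := by
    refine MeasurePreserving.skew_product
      (g := fun (a : E m) (b : Q) => -((‖a‖ ^ 2 / 2 : ℝ) : Q) + b)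
      (MeasurePreserving.id (volume : Measure (E m))) ?_ ?_
    · have h1 : Continuous fun p : E m × Q => ‖p.1‖ ^ 2 / 2 :=
        (continuous_fst.norm.pow 2).div_const 2
      have : Continuous (Function.uncurry fun (a : E m) (b : Q) =>
          -((‖a‖ ^ 2 / 2 : ℝ) : Q) + b) :=
        (celli_coe_cont.comp h1).neg.add continuous_snd
      exact this.measurable
    · refine Filter.Eventually.of_forall fun a => ?_
      exact map_add_left_eq_self (volume : Measure Q) (-((‖a‖ ^ 2 / 2 : ℝ) : Q))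
  have hs : MeasurePreserving (Prod.swap : Q × E m → E m × Q)
      ((volume : Measure Q).prod (volume : Measure (E m)))
      ((volume : Measure (E m)).prod (volume : Measure Q)) := Measure.measurePreserving_swap
  have hs' : MeasurePreserving (Prod.swap : E m × Q → Q × E m)
      ((volume : Measure (E m)).prod (volume : Measure Q))
      ((volume : Measure Q).prod (volume : Measure (E m))) := Measure.measurePreserving_swap
  exact hs'.comp (h1.comp hs)

theorem celliS_E (β : Fin (4 * m) → E m) (γ : Fin 3 → Q) (hγ : ∀ j, (γ j).re = 0)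
    (hγl : LinearIndependent ℝ γ) (hβ : LinearIndependent ℝ β) (y : CelliY m) :
    celliS (celliE β γ hγ hγl hβ y) = cellpt β γ y.2 y.1 := by
  rw [celliE_apply]
  unfold celliS cellpt
  refine Prod.ext ?_ rfl
  have h : (-(y.1 + ‖∑ i, y.2.1 i • β i‖ ^ 2) / 2 : ℝ)
      = -(‖∑ i, y.2.1 i • β i‖ ^ 2 / 2) + -y.1 / 2 := by ring
  simp only [h, Quaternion.coe_add, Quaternion.coe_neg]
  abel

/-- the coordinates of a point -/
noncomputable def celliC (β : Fin (4 * m) → E m) (γ : Fin 3 → Q) (hγ : ∀ j, (γ j).re = 0)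
    (hγl : LinearIndependent ℝ γ) (hβ : LinearIndependent ℝ β) (p : Pt m) : CelliY m :=
  (celliE β γ hγ hγl hβ).symm (celliU p)

theorem celliC_cont (β : Fin (4 * m) → E m) (γ : Fin 3 → Q) (hγ : ∀ j, (γ j).re = 0)
    (hγl : LinearIndependent ℝ γ) (hβ : LinearIndependent ℝ β) :
    Continuous (celliC β γ hγ hγl hβ) :=
  (celliE β γ hγ hγl hβ).symm.continuous.comp celliU_cont

theorem celliC_cellpt (β : Fin (4 * m) → E m) (γ : Fin 3 → Q) (hγ : ∀ j, (γ j).re = 0)
    (hγl : LinearIndependent ℝ γ) (hβ : LinearIndependent ℝ β)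
    (x : (Fin (4 * m) → ℝ) × (Fin 3 → ℝ)) (u : ℝ) :
    celliC β γ hγ hγl hβ (cellpt β γ x u) = (u, x) := by
  have h := celliS_E β γ hγ hγl hβ (u, x)
  unfold celliC
  rw [← h, celliU_S, ContinuousLinearEquiv.symm_apply_apply]

theorem cellpt_celliC (β : Fin (4 * m) → E m) (γ : Fin 3 → Q) (hγ : ∀ j, (γ j).re = 0)
    (hγl : LinearIndependent ℝ γ) (hβ : LinearIndependent ℝ β) (p : Pt m) :
    cellpt β γ (celliC β γ hγ hγl hβ p).2 (celliC β γ hγ hγl hβ p).1 = p := by
  rw [← celliS_E β γ hγ hγl hβ]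
  unfold celliC
  rw [ContinuousLinearEquiv.apply_symm_apply, celliS_U]

/-- the half-open cube -/
def celliQ (m : ℕ) : Set ((Fin (4 * m) → ℝ) × (Fin 3 → ℝ)) :=
  (Set.univ.pi fun _ => Set.Ico (0 : ℝ) 1) ×ˢ (Set.univ.pi fun _ => Set.Ico (0 : ℝ) 1)

theorem celliQ_meas : MeasurableSet (celliQ m) :=
  (MeasurableSet.univ_pi fun _ => measurableSet_Ico).prod
    (MeasurableSet.univ_pi fun _ => measurableSet_Ico)

theorem celliQ_ae :
    celliQ m =ᵐ[volume] Set.Icc (0 : (Fin (4 * m) → ℝ) × (Fin 3 → ℝ)) 1 := by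
  have h1 := Measure.univ_pi_Ico_ae_eq_Icc (μ := fun _ : Fin (4 * m) => (volume : Measure ℝ))
        (f := (0 : Fin (4 * m) → ℝ)) (g := (1 : Fin (4 * m) → ℝ))
  have h2 := Measure.univ_pi_Ico_ae_eq_Icc (μ := fun _ : Fin 3 => (volume : Measure ℝ))
        (f := (0 : Fin 3 → ℝ)) (g := (1 : Fin 3 → ℝ))
  have h3 : Set.Icc (0 : (Fin (4 * m) → ℝ) × (Fin 3 → ℝ)) 1
      = Set.Icc (0 : Fin (4 * m) → ℝ) 1 ×ˢ Set.Icc (0 : Fin 3 → ℝ) 1 := by
    rw [Set.Icc_prod_Icc]
    rfl
  rw [h3]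
  exact Measure.set_prod_ae_eq h1 h2

/-- Haar constant of the parametrisation -/
theorem celli_const (β : Fin (4 * m) → E m) (γ : Fin 3 → Q) (hγ : ∀ j, (γ j).re = 0)
    (hγl : LinearIndependent ℝ γ) (hβ : LinearIndependent ℝ β) :
    ∃ K : ENNReal, K ≠ 0 ∧ K ≠ ⊤ ∧
    (volume : Measure (Pt m)) = K • Measure.map (celliE β γ hγ hγl hβ) volume := by
  have i0 : (volume : Measure Q).IsAddHaarMeasure := inferInstance
  have i0' : (volume : Measure (E m)).IsAddHaarMeasure := inferInstance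
  have i1 : (volume : Measure (Pt m)).IsAddHaarMeasure := by
    rw [Measure.volume_eq_prod]
    exact Measure.prod.instIsAddHaarMeasure _ _
  have i3 : (volume : Measure ((Fin (4 * m) → ℝ) × (Fin 3 → ℝ))).IsAddHaarMeasure := by
    rw [Measure.volume_eq_prod]
    exact Measure.prod.instIsAddHaarMeasure _ _
  have i2 : (volume : Measure (CelliY m)).IsAddHaarMeasure := by
    rw [Measure.volume_eq_prod]
    exact Measure.prod.instIsAddHaarMeasure _ _
  have h1 : (Measure.map (⇑(celliE β γ hγ hγl hβ))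
      (volume : Measure (CelliY m))).IsAddHaarMeasure :=
    ContinuousLinearEquiv.isAddHaarMeasure_map (celliE β γ hγ hγl hβ) volume
  have h2 := Measure.isAddLeftInvariant_eq_smul (volume : Measure (Pt m))
    (Measure.map (⇑(celliE β γ hγ hγl hβ)) (volume : Measure (CelliY m)))
  have h3 := Measure.addHaarScalarFactor_pos_of_isAddHaarMeasure (volume : Measure (Pt m))
    (Measure.map (⇑(celliE β γ hγ hγl hβ)) (volume : Measure (CelliY m)))
  refine ⟨Measure.addHaarScalarFactor (volume : Measure (Pt m))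
    (Measure.map (⇑(celliE β γ hγ hγl hβ)) (volume : Measure (CelliY m))), ?_,
    ENNReal.coe_ne_top, h2⟩
  exact_mod_cast h3.ne'

theorem celli_lint (β : Fin (4 * m) → E m) (γ : Fin 3 → Q) (hγ : ∀ j, (γ j).re = 0)
    (hγl : LinearIndependent ℝ γ) (hβ : LinearIndependent ℝ β) {K : ENNReal}
    (hK : (volume : Measure (Pt m)) = K • Measure.map (celliE β γ hγ hγl hβ) volume)
    (G : Pt m → ENNReal) (hG : Measurable G) :
    ∫⁻ p, G p = K * ∫⁻ u : ℝ, ∫⁻ x : (Fin (4 * m) → ℝ) × (Fin 3 → ℝ), G (cellpt β γ x u) := by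
  have hG2 : Measurable fun p => G (celliS p) := hG.comp celliS_cont.measurable
  have hL : Measurable (celliE β γ hγ hγl hβ) := (celliE β γ hγ hγl hβ).continuous.measurable
  rw [← celliS_mp.lintegral_comp hG]
  have e : ∫⁻ a, G (celliS (celliE β γ hγ hγl hβ a))
      ∂((volume : Measure ℝ).prod (volume : Measure ((Fin (4 * m) → ℝ) × (Fin 3 → ℝ)))) =
      ∫⁻ u : ℝ, ∫⁻ x : (Fin (4 * m) → ℝ) × (Fin 3 → ℝ),
        G (celliS (celliE β γ hγ hγl hβ (u, x))) :=
    lintegral_prod _ (hG2.comp hL).aemeasurable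
  rw [hK, lintegral_smul_measure, lintegral_map hG2 hL, smul_eq_mul,
    Measure.volume_eq_prod ℝ ((Fin (4 * m) → ℝ) × (Fin 3 → ℝ)), e]
  congr 1
  refine lintegral_congr fun u => lintegral_congr fun x => ?_
  rw [celliS_E]

theorem celli_cont (β : Fin (4 * m) → E m) (γ : Fin 3 → Q) (hγ : ∀ j, (γ j).re = 0)
    (hγl : LinearIndependent ℝ γ) (hβ : LinearIndependent ℝ β) :
    Continuous fun y : CelliY m => cellpt β γ y.2 y.1 := by
  have h2 := celliS_cont.comp (celliE β γ hγ hγl hβ).continuous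
  refine h2.congr fun y => ?_
  exact celliS_E β γ hγ hγl hβ y

theorem st_CELLI : ST_CELLI := by
  intro m β γ hγ hγl hβ
  obtain ⟨K, hK0, hKt, hK⟩ := celli_const β γ hγ hγl hβ
  refine ⟨K, hK0, hKt, fun G hG => ?_⟩
  have hset : {p : Pt m | ∃ (x : (Fin (4 * m) → ℝ) × (Fin 3 → ℝ)) (u : ℝ),
      (∀ i, x.1 i ∈ Set.Ico (0 : ℝ) 1) ∧ (∀ j, x.2 j ∈ Set.Ico (0 : ℝ) 1) ∧ 0 < u ∧
        p = cellpt β γ x u}
      = celliC β γ hγ hγl hβ ⁻¹' (Set.Ioi 0 ×ˢ celliQ m) := by
    ext p
    constructor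
    · rintro ⟨x, u, h1, h2, h3, rfl⟩
      rw [Set.mem_preimage, celliC_cellpt]
      exact ⟨h3, fun i _ => h1 i, fun j _ => h2 j⟩
    · rintro ⟨h1, h2, h3⟩
      exact ⟨(celliC β γ hγ hγl hβ p).2, (celliC β γ hγ hγl hβ p).1,
        fun i => h2 i (Set.mem_univ i), fun j => h3 j (Set.mem_univ j),
        h1, (cellpt_celliC β γ hγ hγl hβ p).symm⟩
  rw [hset]
  set S : Set (Pt m) := celliC β γ hγ hγl hβ ⁻¹' (Set.Ioi 0 ×ˢ celliQ m) with hS
  have hSm : MeasurableSet S :=
    (celliC_cont β γ hγ hγl hβ).measurable (measurableSet_Ioi.prod celliQ_meas)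
  have hd : Measurable fun p : Pt m => ENNReal.ofReal ((hgt p ^ (2 * m + 4))⁻¹) :=
    ENNReal.measurable_ofReal.comp ((measurable_hgt.pow_const (2 * m + 4)).inv)
  have hm : Measurable (S.indicator G) := hG.indicator hSm
  have hm2 : Measurable fun p : Pt m =>
      ENNReal.ofReal ((hgt p ^ (2 * m + 4))⁻¹) * S.indicator G p := hd.mul hm
  have e0 : ∫⁻ p in S, G p ∂(hyp m) =
      ∫⁻ p, (SD m).indicator (fun p => ENNReal.ofReal ((hgt p ^ (2 * m + 4))⁻¹) *
        S.indicator G p) p := by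
    rw [← lintegral_indicator hSm]
    unfold hyp
    rw [lintegral_withDensity_eq_lintegral_mul _ hd hm, lintegral_indicator measurableSet_SD]
    rfl
  rw [e0, celli_lint β γ hγ hγl hβ hK _ (hm2.indicator measurableSet_SD)]
  congr 1
  rw [← lintegral_indicator measurableSet_Ioi]
  refine lintegral_congr fun u => ?_
  by_cases hu : 0 < u
  · rw [Set.indicator_of_mem (show u ∈ Set.Ioi (0 : ℝ) from hu)]
    have hcu : Measurable fun x : (Fin (4 * m) → ℝ) × (Fin 3 → ℝ) => G (cellpt β γ x u) :=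
      hG.comp ((celli_cont β γ hγ hγl hβ).comp
        (continuous_const.prodMk continuous_id :
          Continuous fun x : (Fin (4 * m) → ℝ) × (Fin 3 → ℝ) =>
          ((u, x) : CelliY m))).measurable
    have e1 : ∀ x : (Fin (4 * m) → ℝ) × (Fin 3 → ℝ), (SD m).indicator (fun p =>
        ENNReal.ofReal ((hgt p ^ (2 * m + 4))⁻¹) * S.indicator G p) (cellpt β γ x u) =
        (celliQ m).indicator (fun x => ENNReal.ofReal ((u ^ (2 * m + 4))⁻¹) *
          G (cellpt β γ x u)) x := by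
      intro x
      have hSD : cellpt β γ x u ∈ SD m := by
        change 0 < hgt (cellpt β γ x u)
        rw [hgt_cellpt β hγ]
        exact hu
      rw [Set.indicator_of_mem hSD, hgt_cellpt β hγ]
      have hiff : cellpt β γ x u ∈ S ↔ x ∈ celliQ m := by
        rw [hS, Set.mem_preimage, celliC_cellpt]
        exact ⟨fun h => h.2, fun h => ⟨hu, h⟩⟩
      by_cases hx : x ∈ celliQ m
      · rw [Set.indicator_of_mem hx, Set.indicator_of_mem (hiff.2 hx)]
      · rw [Set.indicator_of_notMem hx, Set.indicator_of_notMem (fun h => hx (hiff.1 h)),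
          mul_zero]
    rw [lintegral_congr e1, lintegral_indicator celliQ_meas, lintegral_const_mul _ hcu,
      Measure.restrict_congr_set celliQ_ae]
    unfold cellInt
    ring
  · rw [Set.indicator_of_notMem (show u ∉ Set.Ioi (0 : ℝ) from hu)]
    have e1 : ∀ x : (Fin (4 * m) → ℝ) × (Fin 3 → ℝ), (SD m).indicator (fun p =>
        ENNReal.ofReal ((hgt p ^ (2 * m + 4))⁻¹) * S.indicator G p) (cellpt β γ x u) = 0 := by
      intro x
      rw [Set.indicator_of_notMem]
      intro h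
      have h' : 0 < hgt (cellpt β γ x u) := h
      rw [hgt_cellpt β hγ] at h'
      exact hu h'
    rw [lintegral_congr e1]
    simp

end Pool.Agent.Helper19.Qh
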